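import Mathlib
import Pool.Agent.Helper53.GE.Poly

set_option autoImplicit false

namespace Pool.Agent.Helper53.GF

open Finset Matrix Polynomial Pool.Agent.Helper53.GD Pool.Agent.Helper53.GE

section

set_option linter.unusedSectionVars false

variable {q : ℕ} [NeZero q]

/-- the determinant is a polynomial in `t` of small degree and with small coefficients -/
theorem expandG {n r : ℕ} {A₀ B₀ M₀ : ℤ} (hA₀ : |A₀| ≤ M₀) (hB₀ : |B₀| ≤ M₀) {ι : Type}
    (s : Finset ι) (c : ι → ℤ)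
    (E : ι → ℕ) (a : ι → Fin q) (hlow : ∀ i ∈ s, n * (a i : ℕ) ≤ q * E i)
    (hup : ∀ i ∈ s, q * E i ≤ n * (a i : ℕ) + r) :
    ∃ P : ℤ[X], P.natDegree ≤ r ∧ ∑ j ∈ range (r + 1), |P.coeff j| ≤ (M₀ * ∑ i ∈ s, |c i|) ^ q ∧
      ∀ (R : Type) [CommRing R] (t τ : R), (A₀ : R) * (τ * t ^ n) = B₀ →
        (A₀ : R) ^ q * (twR (fun b => ∑ i ∈ s.filter (fun i => a i = b), (c i : R) * t ^ (E i))
          τ).det = aeval t P := by
  classical
  let J : Finset (Σ _ : Equiv.Perm (Fin q), (Fin q → ι)) :=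
    (Finset.univ : Finset (Equiv.Perm (Fin q))).sigma
      (fun σ => Fintype.piFinset (fun i => s.filter (fun l => a l = σ i - i)))
  let χ : Equiv.Perm (Fin q) → ℕ := fun σ => ∑ i, (if i ≤ σ i then 0 else 1)
  let m : (Σ _ : Equiv.Perm (Fin q), (Fin q → ι)) → ℤ := fun p =>
    ((Equiv.Perm.sign p.1 : ℤˣ) : ℤ) * (A₀ ^ (q - χ p.1) * B₀ ^ (χ p.1) * ∏ i, c (p.2 i))
  let A : (Σ _ : Equiv.Perm (Fin q), (Fin q → ι)) → ℕ := fun p => ∑ i, E (p.2 i) - n * χ p.1
  have hχq : ∀ σ, χ σ ≤ q := by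
    intro σ
    calc χ σ ≤ ∑ _i : Fin q, 1 := Finset.sum_le_sum (fun i _ => by split_ifs <;> omega)
      _ = q := by simp
  have hJ : ∀ p ∈ J, ∀ i, p.2 i ∈ s ∧ a (p.2 i) = p.1 i - i := by
    intro p hp i
    simp only [J, Finset.mem_sigma, Fintype.mem_piFinset, Finset.mem_filter] at hp
    exact hp.2 i
  have hχ : ∀ σ : Equiv.Perm (Fin q), ∑ i, ((σ i - i : Fin q) : ℕ) = q * χ σ := by
    intro σ
    have h1 : ∑ i, (((σ i - i : Fin q) : ℕ) + (i : ℕ)) =
        ∑ i, (((σ i : Fin q) : ℕ) + q * (if i ≤ σ i then 0 else 1)) :=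
      Finset.sum_congr rfl (fun i _ => val_sub (σ i) i)
    rw [Finset.sum_add_distrib, Finset.sum_add_distrib,
      Equiv.sum_comp σ (fun j : Fin q => (j : ℕ)), ← Finset.mul_sum] at h1
    simp only [χ]
    omega
  have hq0 : 0 < q := Nat.pos_of_ne_zero (NeZero.ne q)
  have hexp : ∀ p ∈ J, n * χ p.1 ≤ ∑ i, E (p.2 i) ∧ ∑ i, E (p.2 i) ≤ n * χ p.1 + r := by
    intro p hp
    have e1 : q * (n * χ p.1) = ∑ i, n * ((p.1 i - i : Fin q) : ℕ) := by
      rw [← Finset.mul_sum, hχ]; ring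
    constructor
    · have h1 : q * (n * χ p.1) ≤ q * ∑ i, E (p.2 i) := by
        rw [e1, Finset.mul_sum]
        apply Finset.sum_le_sum
        intro i _
        obtain ⟨h2, h3⟩ := hJ p hp i
        rw [← h3]
        exact hlow _ h2
      exact Nat.le_of_mul_le_mul_left h1 hq0
    · have h1 : q * ∑ i, E (p.2 i) ≤ q * (n * χ p.1 + r) := by
        rw [Nat.mul_add, e1, Finset.mul_sum]
        calc ∑ i, q * E (p.2 i) ≤ ∑ i : Fin q, (n * ((p.1 i - i : Fin q) : ℕ) + r) := by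
              apply Finset.sum_le_sum
              intro i _
              obtain ⟨h2, h3⟩ := hJ p hp i
              rw [← h3]
              exact hup _ h2
          _ = ∑ i, n * ((p.1 i - i : Fin q) : ℕ) + q * r := by
              rw [Finset.sum_add_distrib, Finset.sum_const, Finset.card_univ, Fintype.card_fin,
                smul_eq_mul]
      exact Nat.le_of_mul_le_mul_left h1 hq0
  have hA : ∀ p ∈ J, A p ≤ r := by
    intro p hp
    have := (hexp p hp).2
    simp only [A]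
    omega
  refine ⟨∑ p ∈ J, C (m p) * X ^ (A p), ?_, ?_, ?_⟩
  · apply Polynomial.natDegree_sum_le_of_forall_le
    intro p hp
    exact (natDegree_C_mul_X_pow_le _ _).trans (hA p hp)
  · -- the coefficients
    have h1 : ∀ j, |(∑ p ∈ J, C (m p) * X ^ (A p) : ℤ[X]).coeff j| ≤
        ∑ p ∈ J, if A p = j then |m p| else 0 := by
      intro j
      rw [finsetSum_coeff]
      refine (Finset.abs_sum_le_sum_abs _ _).trans (Finset.sum_le_sum ?_)
      intro p _
      rw [coeff_C_mul_X_pow]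
      by_cases h : j = A p
      · rw [if_pos h, if_pos h.symm]
      · rw [if_neg h, if_neg (fun h' => h h'.symm), abs_zero]
    have h2 : ∑ j ∈ range (r + 1), ∑ p ∈ J, (if A p = j then |m p| else 0) = ∑ p ∈ J, |m p| := by
      rw [Finset.sum_comm]
      apply Finset.sum_congr rfl
      intro p hp
      rw [Finset.sum_ite_eq, if_pos]
      rw [Finset.mem_range]
      have := hA p hp
      omega
    have hM0 : 0 ≤ M₀ := le_trans (abs_nonneg _) hA₀
    have h3 : ∑ p ∈ J, |m p| ≤ M₀ ^ q * ∑ σ : Equiv.Perm (Fin q),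
        ∏ i, ∑ l ∈ s.filter (fun l => a l = σ i - i), |c l| := by
      simp only [J]
      rw [Finset.sum_sigma, Finset.mul_sum]
      apply Finset.sum_le_sum
      intro σ _
      rw [Finset.prod_univ_sum, Finset.mul_sum]
      apply Finset.sum_le_sum
      intro g _
      simp only [m]
      rw [abs_mul, abs_mul, abs_mul, Finset.abs_prod, abs_pow, abs_pow]
      have h4 : |((Equiv.Perm.sign σ : ℤˣ) : ℤ)| = 1 := by
        rcases Int.units_eq_one_or (Equiv.Perm.sign σ) with hs | hs <;> rw [hs] <;> simp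
      rw [h4, one_mul]
      apply mul_le_mul_of_nonneg_right _ (Finset.prod_nonneg (fun i _ => abs_nonneg _))
      calc |A₀| ^ (q - χ σ) * |B₀| ^ (χ σ) ≤ M₀ ^ (q - χ σ) * M₀ ^ (χ σ) :=
            mul_le_mul (pow_le_pow_left₀ (abs_nonneg _) hA₀ _) (pow_le_pow_left₀ (abs_nonneg _) hB₀ _)
              (by positivity) (by positivity)
        _ = M₀ ^ q := by rw [← pow_add, Nat.sub_add_cancel (hχq σ)]
    have h5 : ∑ b : Fin q, ∑ l ∈ s.filter (fun l => a l = b), |c l| = ∑ l ∈ s, |c l| :=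
      Finset.sum_fiberwise s a (fun l => |c l|)
    calc ∑ j ∈ range (r + 1), |(∑ p ∈ J, C (m p) * X ^ (A p) : ℤ[X]).coeff j|
        ≤ ∑ j ∈ range (r + 1), ∑ p ∈ J, (if A p = j then |m p| else 0) :=
          Finset.sum_le_sum (fun j _ => h1 j)
      _ ≤ M₀ ^ q * ∑ σ : Equiv.Perm (Fin q),
          ∏ i, ∑ l ∈ s.filter (fun l => a l = σ i - i), |c l| := by
          rw [h2]; exact h3
      _ ≤ M₀ ^ q * (∑ b : Fin q, ∑ l ∈ s.filter (fun l => a l = b), |c l|) ^ q :=
          mul_le_mul_of_nonneg_left (sum_perm_le (fun b => ∑ l ∈ s.filter (fun l => a l = b), |c l|)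
            (fun b => Finset.sum_nonneg (fun l _ => abs_nonneg _))) (by positivity)
      _ = (M₀ * ∑ l ∈ s, |c l|) ^ q := by rw [h5, mul_pow]
  · intro R _ t τ hτ
    rw [Matrix.det_apply', map_sum, Finset.mul_sum]
    simp only [J]
    rw [Finset.sum_sigma]
    apply Finset.sum_congr rfl
    intro σ _
    have h1 : ∏ i, twR (fun b => ∑ i ∈ s.filter (fun i => a i = b),
        (c i : R) * t ^ (E i)) τ (σ i) i =
        τ ^ (χ σ) * ∑ g ∈ Fintype.piFinset (fun i => s.filter (fun l => a l = σ i - i)),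
          ∏ i, ((c (g i) : R) * t ^ (E (g i))) := by
      simp only [twR]
      rw [Finset.prod_mul_distrib, Finset.prod_pow_eq_pow_sum, Finset.prod_univ_sum]
    rw [h1, Finset.mul_sum, Finset.mul_sum, Finset.mul_sum]
    apply Finset.sum_congr rfl
    intro g hg
    have hgJ : (⟨σ, g⟩ : Σ _ : Equiv.Perm (Fin q), (Fin q → ι)) ∈ J := by
      simp only [J, Finset.mem_sigma]
      exact ⟨Finset.mem_univ _, hg⟩
    have h2 := (hexp _ hgJ).1
    simp only at h2
    rw [map_mul, map_pow, aeval_X, aeval_C, algebraMap_int_eq, eq_intCast]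
    simp only [m, A, Int.cast_mul, Int.cast_pow, Int.cast_prod]
    have h3 : ∏ i, ((c (g i) : R) * t ^ (E (g i))) =
        (∏ i, (c (g i) : R)) * t ^ (∑ i, E (g i)) := by
      rw [Finset.prod_mul_distrib, Finset.prod_pow_eq_pow_sum]
    have h4 : t ^ (∑ i, E (g i)) = t ^ (n * χ σ) * t ^ (∑ i, E (g i) - n * χ σ) := by
      rw [← pow_add]; congr 1; omega
    have h5 : (A₀ : R) ^ q * (τ ^ (χ σ) * t ^ (n * χ σ)) =
        (A₀ : R) ^ (q - χ σ) * (B₀ : R) ^ (χ σ) := by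
      have e1 : (A₀ : R) ^ q = (A₀ : R) ^ (q - χ σ) * (A₀ : R) ^ (χ σ) := by
        rw [← pow_add, Nat.sub_add_cancel (hχq σ)]
      rw [e1, pow_mul, ← mul_pow, mul_assoc, ← mul_pow, hτ]
    rw [h3, h4]
    calc (A₀ : R) ^ q * (((Equiv.Perm.sign σ : ℤˣ) : ℤ) * (τ ^ (χ σ) *
          ((∏ i, (c (g i) : R)) * (t ^ (n * χ σ) * t ^ (∑ i, E (g i) - n * χ σ)))))
        = ((Equiv.Perm.sign σ : ℤˣ) : ℤ) * (((A₀ : R) ^ q * (τ ^ (χ σ) * t ^ (n * χ σ))) *
          ∏ i, (c (g i) : R)) * t ^ (∑ i, E (g i) - n * χ σ) := by ring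
      _ = _ := by rw [h5]

end

/-- **The abstract core.** A polynomial of small degree, with small coefficients, in the ideal
generated by `A T ^ n - B` and a sparse polynomial. -/
theorem coreG {n q r : ℕ} (hq : 1 ≤ q) {A₀ B₀ M₀ : ℤ} (hA₀ : |A₀| ≤ M₀) (hB₀ : |B₀| ≤ M₀)
    {ι : Type} (s : Finset ι)
    (c : ι → ℤ) (E a : ι → ℕ) (ha : ∀ i ∈ s, a i < q) (h1 : ∀ i ∈ s, n * a i ≤ q * E i)
    (h2 : ∀ i ∈ s, q * E i ≤ n * a i + r) :
    ∃ P : ℤ[X], P.natDegree ≤ r ∧ ∑ j ∈ range (r + 1), |P.coeff j| ≤ (M₀ * ∑ i ∈ s, |c i|) ^ q ∧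
      (∀ (R : Type) [CommRing R] (t : R), (A₀ : R) * t ^ n = B₀ →
        ∑ i ∈ s, (c i : R) * t ^ (E i) = 0 → aeval t P = 0) ∧
      (∀ (K : Type) [Field K] (t : K), t ≠ 0 → (A₀ : K) ≠ 0 →
        Irreducible (X ^ q - C ((B₀ : K) / (A₀ * t ^ n)) : K[X]) →
        aeval t P = 0 → ∑ i ∈ s, (c i : K) * t ^ (E i) = 0) := by
  classical
  have hne : NeZero q := ⟨by omega⟩
  let a' : ι → Fin q := fun i => ⟨a i % q, Nat.mod_lt _ (by omega)⟩
  have ha' : ∀ i ∈ s, ((a' i : Fin q) : ℕ) = a i := fun i hi => Nat.mod_eq_of_lt (ha i hi)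
  obtain ⟨P, hP1, hP2, hP3⟩ := expandG (n := n) (r := r) hA₀ hB₀ s c E a' (by
      intro i hi
      rw [ha' i hi]
      exact h1 i hi) (by
      intro i hi
      rw [ha' i hi]
      exact h2 i hi)
  have hsum : ∀ (R : Type) [CommRing R] (t : R),
      ∑ b : Fin q, ∑ i ∈ s.filter (fun i => a' i = b), (c i : R) * t ^ (E i) =
      ∑ i ∈ s, (c i : R) * t ^ (E i) := by
    intro R _ t
    exact Finset.sum_fiberwise s a' (fun i => (c i : R) * t ^ (E i))
  refine ⟨P, hP1, hP2, ?_, ?_⟩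
  · intro R _ t ht h0
    have hdet := hP3 R t 1 (by rw [one_mul]; exact ht)
    rw [← hdet]
    set w : Fin q → R := fun b => ∑ i ∈ s.filter (fun i => a' i = b),
      (c i : R) * t ^ (E i) with hw
    have hw0 : ∑ b, w b = 0 := by rw [hw, hsum R t, ← h0]
    have hrow : (twR w 1) *ᵥ (fun _ => (1 : R)) = 0 := by
      funext j
      simp only [Matrix.mulVec, dotProduct, twR, one_pow, one_mul, mul_one, Pi.zero_apply]
      rw [← hw0]
      exact Equiv.sum_comp (Equiv.subLeft j) w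
    have h4 : (twR w 1).adjugate *ᵥ ((twR w 1) *ᵥ (fun _ => (1 : R))) = fun _ => (twR w 1).det := by
      rw [Matrix.mulVec_mulVec, Matrix.adjugate_mul]
      ext j
      simp [Matrix.mulVec, dotProduct, Matrix.smul_apply, Matrix.one_apply]
    rw [hrow, Matrix.mulVec_zero] at h4
    have h5 := congrFun h4 (0 : Fin q)
    have h6 : (twR w 1).det = 0 := by simpa using h5.symm
    rw [h6, mul_zero]
  · intro K _ t ht hA hirr h0
    have hdet := hP3 K t ((B₀ : K) / (A₀ * t ^ n)) (by field_simp)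
    rw [h0] at hdet
    have hdet' := (mul_eq_zero.1 hdet).resolve_left (pow_ne_zero _ hA)
    by_contra hne0
    apply det_ne_zeroK _ _ hirr ?_ hdet'
    intro hw
    apply hne0
    rw [← hsum K t]
    apply Finset.sum_eq_zero
    intro b _
    exact congrFun hw b

end Pool.Agent.Helper53.GF
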