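import Mathlib
import Pool.Agent.Helper53.GF.Poly
import Pool.Agent.Helper53.GE.Luc

set_option autoImplicit false

namespace Pool.Agent.Helper53.GF

open Finset Polynomial Pool.Agent.Helper53.GD Pool.Agent.Helper53.GE

/-- **The common part**, for a relation `A t ^ n = B`. -/
theorem luc_coreG {O K : Type} [CommRing O] [Field K] (f : O →+* K) (hf : Function.Injective f)
    {P : ℤ} {w w' : O} (h1 : w + w' = P) (h2 : w * w' = -1)
    {n k H N D : ℕ} (hn : 1 ≤ n) (hN : 1 ≤ N) {A₀ B₀ : ℤ} {M₀ : ℕ} (hM₀ : 1 ≤ M₀)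
    (hA₀ : |A₀| ≤ M₀) (hB₀ : |B₀| ≤ M₀)
    (hAK : (A₀ : K) ≠ 0)
    (hirr : ∀ q : ℕ, 1 ≤ q → q ≤ N ^ k →
      Irreducible (X ^ q - C ((B₀ : K) / ((A₀ : K) * (f w) ^ n)) : K[X]))
    (s : Finset ℕ) (c : ℕ → ℤ) (hs : s.card ≤ k) (hc : ∀ i ∈ s, |c i| ≤ H)
    (hD : ∀ i ∈ s, i ≤ D * n)
    (I : Ideal O) (hI : (A₀ : O) * w ^ n - (B₀ : O) ∈ I)
    (hz : ((∑ i ∈ s, c i * LU P i : ℤ) : O) ∈ I) :
    ((A₀ : O) * w ^ n - (B₀ : O)) ∣
        (A₀ : O) ^ (2 * D) * ((w - w') * ((∑ i ∈ s, c i * LU P i : ℤ) : O)) ∨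
      ∃ (q : ℕ) (Q : ℤ[X]), q ≤ N ^ k ∧ Q.natDegree ≤ 2 * n / N + q ∧
        ∑ j ∈ range (2 * n / N + q + 1), |Q.coeff j| ≤ ((2 * k * (H * M₀ ^ (2 * D + 1)) : ℕ) : ℤ) ^ q ∧
        aeval w Q ∈ I ∧ aeval w Q ≠ 0 := by
  classical
  have hwu : IsUnit w := IsUnit.of_mul_eq_one (-w') (by rw [mul_neg, h2, neg_neg])
  obtain ⟨q, α, hq1, hq2, hα⟩ := dirichletN s hn hN
  have hq3 : q ≤ N ^ k := hq2.trans (Nat.pow_le_pow_right hN hs)
  have hNq : 0 < N * q := Nat.mul_pos (by omega) (by omega)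
  obtain ⟨S, hS1, hS2⟩ : ∃ S : ℕ, n ≤ N * q * S ∧ N * q * S ≤ n + N * q - 1 := by
    refine ⟨(n + N * q - 1) / (N * q), ?_, Nat.mul_div_le _ _⟩
    have h3 := Nat.div_add_mod (n + N * q - 1) (N * q)
    have h4 := Nat.mod_lt (n + N * q - 1) hNq
    omega
  have hN0 : (0 : ℤ) < N := by exact_mod_cast hN
  have hL1 : ∀ i ∈ s, i ≤ n * D + S := by
    intro i hi
    have h3 := hD i hi
    rw [mul_comm] at h3
    omega
  have hL2 : ∀ i ∈ s, α i ≤ q * D := by
    intro i hi
    have h3 := hα i hi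
    rw [abs_lt] at h3
    have h4 : (i : ℤ) ≤ D * n := by exact_mod_cast hD i hi
    have hn0 : (0 : ℤ) < n := by exact_mod_cast hn
    have hq0 : (0 : ℤ) < q := by exact_mod_cast hq1
    have h5 : (N : ℤ) * n * α i < N * n * (q * D) + n := by
      have e1 : (q : ℤ) * i ≤ q * (D * n) := mul_le_mul_of_nonneg_left h4 hq0.le
      have e2 : (N : ℤ) * (q * i) ≤ N * (q * (D * n)) := mul_le_mul_of_nonneg_left e1 hN0.le
      nlinarith [h3.1]
    have h6 : (α i : ℤ) < q * D + 1 := by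
      have e3 : (N : ℤ) * n * α i < N * n * (q * D + 1) := by
        have : (n : ℤ) ≤ N * n := by nlinarith
        nlinarith
      exact lt_of_mul_lt_mul_left e3 (by positivity)
    have h7 : (α i : ℤ) ≤ ((q * D : ℕ) : ℤ) := by push_cast; linarith
    exact_mod_cast h7
  let r : ℕ := 2 * n / N + q
  -- the two kinds of terms
  let c' : ℕ ⊕ ℕ → ℤ := Sum.elim c (fun i => -((-1) ^ i * c i))
  let e' : ℕ ⊕ ℕ → ℕ := Sum.elim (fun i => n * D + S + i) (fun i => n * D + S - i)
  let α' : ℕ ⊕ ℕ → ℕ := Sum.elim (fun i => q * D + α i) (fun i => q * D - α i)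
  have hS3 : (n : ℤ) ≤ N * q * S := by exact_mod_cast hS1
  have hS4 : (N : ℤ) * q * S ≤ n + N * q - 1 := by
    have h5 : N * q * S + 1 ≤ n + N * q := by omega
    have : ((N * q * S + 1 : ℕ) : ℤ) ≤ ((n + N * q : ℕ) : ℤ) := by exact_mod_cast h5
    push_cast at this
    linarith
  have key : ∀ d : ℤ, |(N : ℤ) * d| < n → 0 ≤ q * S + d ∧ q * S + d ≤ r := by
    intro d hd
    rw [abs_lt] at hd
    constructor
    · have h6 : (0 : ℤ) < N * (q * S + d) := by
        have h7 : (N : ℤ) * (q * S + d) = N * d + N * q * S := by ring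
        rw [h7]; linarith [hd.1]
      exact (lt_of_mul_lt_mul_left (by rw [mul_zero]; exact h6) hN0.le).le
    · have h6 : (N : ℤ) * (q * S + d - q) < 2 * n := by
        have h7 : (N : ℤ) * (q * S + d - q) = N * d + N * q * S - N * q := by ring
        rw [h7]; linarith [hd.2]
      have h8 : (q : ℤ) * S + d - q ≤ ((2 * n / N : ℕ) : ℤ) := by
        push_cast
        rw [Int.le_ediv_iff_mul_le hN0]
        linarith
      simp only [r]
      push_cast at h8 ⊢
      linarith
  have hlow : ∀ i ∈ s.disjSum s, n * α' i ≤ q * e' i := by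
    intro i hi
    rw [Finset.mem_disjSum] at hi
    rcases hi with ⟨j, hj, rfl⟩ | ⟨j, hj, rfl⟩
    · have h3 := (key _ (hα j hj)).1
      simp only [α', e', Sum.elim_inl]
      have h4 : ((n * (q * D + α j) : ℕ) : ℤ) ≤ ((q * (n * D + S + j) : ℕ) : ℤ) := by
        push_cast
        linarith
      exact_mod_cast h4
    · have h3 := (key (-((q : ℤ) * j - n * α j)) (by rw [mul_neg, abs_neg]; exact hα j hj)).1
      simp only [α', e', Sum.elim_inr]
      have h4 : ((n * (q * D - α j) : ℕ) : ℤ) ≤ ((q * (n * D + S - j) : ℕ) : ℤ) := by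
        rw [Nat.cast_mul, Nat.cast_mul, Nat.cast_sub (hL2 j hj), Nat.cast_sub (hL1 j hj)]
        push_cast
        linarith
      exact_mod_cast h4
  have hup : ∀ i ∈ s.disjSum s, q * e' i ≤ n * α' i + r := by
    intro i hi
    rw [Finset.mem_disjSum] at hi
    rcases hi with ⟨j, hj, rfl⟩ | ⟨j, hj, rfl⟩
    · have h3 := (key _ (hα j hj)).2
      simp only [α', e', Sum.elim_inl]
      have h4 : ((q * (n * D + S + j) : ℕ) : ℤ) ≤ ((n * (q * D + α j) + r : ℕ) : ℤ) := by
        push_cast at h3 ⊢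
        linarith
      exact_mod_cast h4
    · have h3 := (key (-((q : ℤ) * j - n * α j)) (by rw [mul_neg, abs_neg]; exact hα j hj)).2
      simp only [α', e', Sum.elim_inr]
      have h4 : ((q * (n * D + S - j) : ℕ) : ℤ) ≤ ((n * (q * D - α j) + r : ℕ) : ℤ) := by
        rw [Nat.cast_add, Nat.cast_mul, Nat.cast_mul, Nat.cast_sub (hL2 j hj),
          Nat.cast_sub (hL1 j hj)]
        push_cast at h3 ⊢
        linarith
      exact_mod_cast h4
  -- the reduced labels
  have hκ2 : ∀ i ∈ s.disjSum s, α' i / q ≤ 2 * D := by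
    intro i hi
    apply Nat.div_le_of_le_mul
    rw [Finset.mem_disjSum] at hi
    rcases hi with ⟨j, hj, rfl⟩ | ⟨j, hj, rfl⟩
    · have h3 := hL2 j hj
      simp only [α', Sum.elim_inl]
      nlinarith
    · simp only [α', Sum.elim_inr]
      have : q * D - α j ≤ q * D := Nat.sub_le _ _
      nlinarith
  have hκe : ∀ i ∈ s.disjSum s, n * (α' i / q) ≤ e' i := by
    intro i hi
    have h6 := hlow i hi
    have h7 : q * (α' i / q) ≤ α' i := Nat.mul_div_le _ _
    have h8 : q * (n * (α' i / q)) ≤ q * e' i := by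
      calc q * (n * (α' i / q)) = n * (q * (α' i / q)) := by ring
        _ ≤ n * α' i := Nat.mul_le_mul_left _ h7
        _ ≤ q * e' i := h6
    exact Nat.le_of_mul_le_mul_left h8 (by omega)
  let E : ℕ ⊕ ℕ → ℕ := fun i => e' i - n * (α' i / q)
  let a : ℕ ⊕ ℕ → ℕ := fun i => α' i % q
  let c'' : ℕ ⊕ ℕ → ℤ := fun i => c' i * (A₀ ^ (2 * D - α' i / q) * B₀ ^ (α' i / q))
  have hE : ∀ i ∈ s.disjSum s, q * E i + n * (q * (α' i / q)) = q * e' i := by
    intro i hi
    have h3 := hκe i hi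
    simp only [E]
    have h4 : q * (e' i - n * (α' i / q)) + q * (n * (α' i / q)) = q * e' i := by
      rw [← Nat.mul_add, Nat.sub_add_cancel h3]
    calc _ = q * (e' i - n * (α' i / q)) + q * (n * (α' i / q)) := by ring
      _ = _ := h4
  have hmod : ∀ i, n * α' i = n * (α' i % q) + n * (q * (α' i / q)) := by
    intro i
    rw [← Nat.mul_add, Nat.mod_add_div]
  obtain ⟨Q, hQ1, hQ2, hQ3, hQ4⟩ := coreG (n := n) (q := q) (r := r) hq1 hA₀ hB₀ (s.disjSum s) c'' E a
    (fun i _ => Nat.mod_lt _ (by omega)) (by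
      intro i hi
      have h3 := hlow i hi
      have h4 := hE i hi
      have h5 := hmod i
      simp only [a]
      omega) (by
      intro i hi
      have h3 := hup i hi
      have h4 := hE i hi
      have h5 := hmod i
      simp only [a]
      omega)
  -- the sparse identity
  have hsum : ∑ i ∈ s.disjSum s, (c' i : O) * w ^ (e' i) =
      w ^ (n * D + S) * ((w - w') * ((∑ i ∈ s, c i * LU P i : ℤ) : O)) := by
    rw [Finset.sum_disjSum, ← Finset.sum_add_distrib]
    push_cast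
    rw [Finset.mul_sum, Finset.mul_sum]
    apply Finset.sum_congr rfl
    intro i hi
    simp only [c', e', Sum.elim_inl, Sum.elim_inr]
    have h3 := hL1 i hi
    have h4 : w ^ (n * D + S) * w' ^ i = (-1) ^ i * w ^ (n * D + S - i) := by
      have h5 : w ^ (n * D + S) = w ^ (n * D + S - i) * w ^ i := by
        rw [← pow_add]; congr 1; omega
      rw [h5, mul_assoc, ← mul_pow, h2]
      ring
    push_cast
    calc (c i : O) * w ^ (n * D + S + i) + -((-1) ^ i * (c i : O)) * w ^ (n * D + S - i)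
        = (c i : O) * (w ^ (n * D + S) * w ^ i - (-1) ^ i * w ^ (n * D + S - i)) := by
          rw [pow_add]; ring
      _ = (c i : O) * (w ^ (n * D + S) * (w ^ i - w' ^ i)) := by rw [← h4]; ring
      _ = w ^ (n * D + S) * ((w - w') * ((c i : O) * (LU P i : O))) := by
          rw [← LU_mul h1 h2 i]; ring
  -- the difference of the reduced and the original sum
  have hdiff : ((A₀ : O) * w ^ n - (B₀ : O)) ∣
      (A₀ : O) ^ (2 * D) * ∑ i ∈ s.disjSum s, (c' i : O) * w ^ (e' i) -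
        ∑ i ∈ s.disjSum s, (c'' i : O) * w ^ (E i) := by
    rw [Finset.mul_sum, ← Finset.sum_sub_distrib]
    apply Finset.dvd_sum
    intro i hi
    have h11 := hκe i hi
    have h12 := hκ2 i hi
    have e1 : w ^ (e' i) = w ^ (E i) * (w ^ n) ^ (α' i / q) := by
      rw [← pow_mul, ← pow_add]; congr 1; simp only [E]; omega
    have e3 : (A₀ : O) ^ (2 * D) = (A₀ : O) ^ (2 * D - α' i / q) * (A₀ : O) ^ (α' i / q) := by
      rw [← pow_add, Nat.sub_add_cancel h12]
    have e2 : (A₀ : O) ^ (2 * D) * ((c' i : O) * w ^ (e' i)) - (c'' i : O) * w ^ (E i) =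
        (c' i : O) * (A₀ : O) ^ (2 * D - α' i / q) * w ^ (E i) *
          (((A₀ : O) * w ^ n) ^ (α' i / q) - (B₀ : O) ^ (α' i / q)) := by
      rw [e1, e3]
      simp only [c'']
      push_cast
      rw [mul_pow]
      ring
    rw [e2]
    exact Dvd.dvd.mul_left (sub_dvd_pow_sub_pow _ _ _) _
  have hmem : aeval w Q ∈ I := by
    have h3 : aeval (Ideal.Quotient.mk I w) Q = 0 := by
      apply hQ3 (O ⧸ I) (Ideal.Quotient.mk I w)
      · have h4 : Ideal.Quotient.mk I ((A₀ : O) * w ^ n - (B₀ : O)) = 0 :=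
          Ideal.Quotient.eq_zero_iff_mem.2 hI
        rw [map_sub, map_mul, map_pow, map_intCast, map_intCast] at h4
        exact sub_eq_zero.1 h4
      · have h4 : Ideal.Quotient.mk I (∑ i ∈ s.disjSum s, (c'' i : O) * w ^ (E i)) = 0 := by
          rw [Ideal.Quotient.eq_zero_iff_mem]
          obtain ⟨y, hy⟩ := hdiff
          have h5 : ∑ i ∈ s.disjSum s, (c'' i : O) * w ^ (E i) =
              (A₀ : O) ^ (2 * D) * ∑ i ∈ s.disjSum s, (c' i : O) * w ^ (e' i) -
                y * ((A₀ : O) * w ^ n - (B₀ : O)) := by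
            linear_combination -hy
          rw [h5]
          apply Ideal.sub_mem
          · rw [hsum]
            exact Ideal.mul_mem_left _ _ (Ideal.mul_mem_left _ _ (Ideal.mul_mem_left _ _ hz))
          · exact Ideal.mul_mem_left _ _ hI
        rw [map_sum] at h4
        rw [← h4]
        apply Finset.sum_congr rfl
        intro i _
        rw [map_mul, map_pow, map_intCast]
    have h4 : aeval (Ideal.Quotient.mk I w) Q = Ideal.Quotient.mk I (aeval w Q) := by
      rw [aeval_eq_sum_range, aeval_eq_sum_range, map_sum]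
      apply Finset.sum_congr rfl
      intro j _
      rw [zsmul_eq_mul, zsmul_eq_mul, map_mul, map_pow, map_intCast]
    rw [h4] at h3
    exact Ideal.Quotient.eq_zero_iff_mem.1 h3
  by_cases hQ0 : aeval w Q = 0
  · left
    have hfw : f w ≠ 0 := by
      intro h0
      have h3 : f w * f w' = -1 := by rw [← map_mul, h2, map_neg, map_one]
      rw [h0, zero_mul] at h3
      exact absurd h3.symm (neg_ne_zero.2 one_ne_zero)
    have h3 : aeval (f w) Q = 0 := by
      have h4 : aeval (f w) Q = f (aeval w Q) := by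
        rw [aeval_eq_sum_range, aeval_eq_sum_range, map_sum]
        apply Finset.sum_congr rfl
        intro j _
        rw [zsmul_eq_mul, zsmul_eq_mul, map_mul, map_pow, map_intCast]
      rw [h4, hQ0, map_zero]
    have h5 := hQ4 K (f w) hfw hAK (hirr q hq1 hq3) h3
    have h6 : ∑ i ∈ s.disjSum s, (c'' i : O) * w ^ (E i) = 0 := by
      apply hf
      rw [map_zero, ← h5, map_sum]
      apply Finset.sum_congr rfl
      intro i _
      rw [map_mul, map_pow, map_intCast]
    rw [h6, sub_zero, hsum] at hdiff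
    have h7 : (A₀ : O) ^ (2 * D) * (w ^ (n * D + S) * ((w - w') * ((∑ i ∈ s, c i * LU P i : ℤ) : O))) =
        w ^ (n * D + S) * ((A₀ : O) ^ (2 * D) * ((w - w') * ((∑ i ∈ s, c i * LU P i : ℤ) : O))) := by
      ring
    rw [h7] at hdiff
    exact ((hwu.pow _).dvd_mul_left).1 hdiff
  · right
    refine ⟨q, Q, hq3, hQ1, ?_, hmem, hQ0⟩
    refine hQ2.trans ?_
    have hM1 : (1 : ℤ) ≤ M₀ := by exact_mod_cast hM₀
    have hsum0 : 0 ≤ ∑ i ∈ s.disjSum s, |c'' i| := Finset.sum_nonneg (fun i _ => abs_nonneg _)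
    apply pow_le_pow_left₀ (mul_nonneg (by linarith) hsum0)
    have hci : ∀ i ∈ s.disjSum s, |c'' i| ≤ H * (M₀ : ℤ) ^ (2 * D) := by
      intro i hi
      have h12 := hκ2 i hi
      simp only [c'']
      rw [abs_mul, abs_mul, abs_pow, abs_pow]
      have e1 : |c' i| ≤ H := by
        rw [Finset.mem_disjSum] at hi
        rcases hi with ⟨j, hj, rfl⟩ | ⟨j, hj, rfl⟩
        · simp only [c', Sum.elim_inl]
          exact hc j hj
        · simp only [c', Sum.elim_inr]
          rw [abs_neg, abs_mul, abs_pow, abs_neg, abs_one, one_pow, one_mul]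
          exact hc j hj
      have e2 : |A₀| ^ (2 * D - α' i / q) * |B₀| ^ (α' i / q) ≤ (M₀ : ℤ) ^ (2 * D) := by
        calc |A₀| ^ (2 * D - α' i / q) * |B₀| ^ (α' i / q) ≤
            (M₀ : ℤ) ^ (2 * D - α' i / q) * (M₀ : ℤ) ^ (α' i / q) :=
              mul_le_mul (pow_le_pow_left₀ (abs_nonneg _) hA₀ _)
                (pow_le_pow_left₀ (abs_nonneg _) hB₀ _) (by positivity) (by positivity)
          _ = (M₀ : ℤ) ^ (2 * D) := by rw [← pow_add, Nat.sub_add_cancel h12]
      exact mul_le_mul e1 e2 (by positivity) (by positivity)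
    calc (M₀ : ℤ) * ∑ i ∈ s.disjSum s, |c'' i| ≤
        M₀ * ∑ i ∈ s.disjSum s, (H * (M₀ : ℤ) ^ (2 * D)) :=
          mul_le_mul_of_nonneg_left (Finset.sum_le_sum hci) (by linarith)
      _ = ((s.card : ℤ) + s.card) * (H * (M₀ : ℤ) ^ (2 * D + 1)) := by
          rw [Finset.sum_const, Finset.card_disjSum, nsmul_eq_mul]
          push_cast
          ring
      _ ≤ ((k : ℤ) + k) * (H * (M₀ : ℤ) ^ (2 * D + 1)) := by
          apply mul_le_mul_of_nonneg_right _ (by positivity)
          have : (s.card : ℤ) ≤ k := by exact_mod_cast hs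
          linarith
      _ = ((2 * k * (H * M₀ ^ (2 * D + 1)) : ℕ) : ℤ) := by push_cast; ring

end Pool.Agent.Helper53.GF
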