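import Mathlib
import Pool.Agent.Helper53.GF.Luc
import Pool.Agent.Helper53.GE.LucMain
import Pool.Agent.Helper53.GE.IrrPair

set_option autoImplicit false

namespace Pool.Agent.Helper53.GF

open Finset Polynomial Pool.Agent.Helper53.GE Pool.Agent.Helper53.GD Pool.Agent.Helper53.FF
open scoped QuadraticAlgebra

/-- `4` is no odd power -/
lemma no_odd_root_four {p : ℕ} (hp : 3 ≤ p) (r : ℚ) : r ^ p ≠ 4 := by
  intro h
  have h1 : r ^ p = ((4 : ℤ) : ℚ) / ((1 : ℤ) : ℚ) := by rw [h]; norm_num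
  obtain ⟨e1, -⟩ := frac_pow (a := 1) (b := 4) (by norm_num) isCoprime_one_left h1
  have h2 : |r.num| ^ p = 4 := by rw [← abs_pow, e1]; norm_num
  rcases le_or_gt 2 |r.num| with h3 | h3
  · have h4 : (2 : ℤ) ^ 3 ≤ |r.num| ^ p := by
      calc (2 : ℤ) ^ 3 ≤ 2 ^ p := pow_le_pow_right₀ (by norm_num) hp
        _ ≤ |r.num| ^ p := pow_le_pow_left₀ (by norm_num) h3 p
    rw [h2] at h4
    norm_num at h4
  · have h4 : |r.num| ^ p ≤ 1 := pow_le_one₀ (abs_nonneg _) (by omega)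
    rw [h2] at h4
    norm_num at h4

/-- `X ^ q + 1 / (2 ω ^ (4 m))` is irreducible over `ℚ(√2)` -/
theorem irr_pell [Fact (∀ r : ℚ, r ^ 2 ≠ 1 + ((2 : ℤ) : ℚ) * r)] (m : ℕ) {q : ℕ} (hq : 1 ≤ q) :
    Irreducible (X ^ q - C (((-1 : ℤ) : KK 2) /
      (((2 : ℤ) : KK 2) * (QuadraticAlgebra.omega : KK 2) ^ (4 * m))) : (KK 2)[X]) := by
  set t : KK 2 := QuadraticAlgebra.omega with ht
  set u : KK 2 := ⟨-1, 1⟩ with hu
  have hu2 : u ^ 2 = 2 := by
    rw [sq, hu]
    ext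
    · rw [QuadraticAlgebra.re_mul, QuadraticAlgebra.re_ofNat]; norm_num
    · rw [QuadraticAlgebra.im_mul, QuadraticAlgebra.im_ofNat]; norm_num
  have hNu : QuadraticAlgebra.norm u = -2 := by
    rw [QuadraticAlgebra.norm_def, hu]; norm_num
  have hNt : QuadraticAlgebra.norm t = -1 := by
    rw [QuadraticAlgebra.norm_def, ht]; simp
  have hN2 : QuadraticAlgebra.norm (2 : KK 2) = 4 := by
    rw [QuadraticAlgebra.norm_def, QuadraticAlgebra.re_ofNat, QuadraticAlgebra.im_ofNat]; norm_num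
  have ht0 : t ≠ 0 := by
    intro h
    have h1 := congrArg QuadraticAlgebra.im h
    simp [ht] at h1
  have hu0 : u ≠ 0 := by
    intro h
    rw [h, QuadraticAlgebra.norm_zero] at hNu
    norm_num at hNu
  set A : KK 2 := 1 / (u * t ^ (2 * m)) with hA
  have hA0 : A ≠ 0 := one_div_ne_zero (mul_ne_zero hu0 (pow_ne_zero _ ht0))
  have hNA : QuadraticAlgebra.norm A = -(1 / 2) := by
    have h1 : QuadraticAlgebra.norm A * QuadraticAlgebra.norm (u * t ^ (2 * m)) = 1 := by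
      rw [← map_mul, hA, one_div, inv_mul_cancel₀ (mul_ne_zero hu0 (pow_ne_zero _ ht0)), map_one]
    rw [map_mul, map_pow, hNt, hNu, pow_mul] at h1
    norm_num at h1
    linarith
  have e0 : ((-1 : ℤ) : KK 2) / (((2 : ℤ) : KK 2) * t ^ (4 * m)) = -(A ^ 2) := by
    rw [hA, div_pow, mul_pow, hu2, ← pow_mul]
    push_cast
    rw [show 2 * m * 2 = 4 * m by ring]
    ring
  rw [e0]
  let σ := evK 2 (al 2) (al_sq 2)
  obtain ⟨s, w, hw, rfl⟩ := Nat.exists_eq_two_pow_mul_odd (by omega : q ≠ 0)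
  have h3 : Irreducible (X ^ (2 ^ s) - C (-(A ^ 2)) : (KK 2)[X]) := by
    apply irr_two_sq'
    · intro r hr
      have h1 : (σ r) ^ 2 = -((σ A) ^ 2) := by rw [← map_pow, hr, map_neg, map_pow]
      have h2 : σ A ≠ 0 := by
        rw [_root_.map_ne_zero]
        exact hA0
      nlinarith [sq_nonneg (σ r), sq_pos_of_ne_zero h2]
    · intro r hr
      have h1 : (QuadraticAlgebra.norm r) ^ 2 = -2 := by
        rw [← map_pow, hr, map_mul, hN2, hNA]; norm_num
      nlinarith [sq_nonneg (QuadraticAlgebra.norm r)]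
    · intro r hr
      have h1 : (QuadraticAlgebra.norm r) ^ 2 = -2 := by
        rw [← map_pow, hr, QuadraticAlgebra.norm_neg, map_mul, hN2, hNA]; norm_num
      nlinarith [sq_nonneg (QuadraticAlgebra.norm r)]
  rw [mul_comm]
  apply irr_odd (by positivity) h3 hw
  intro p hp hpw r hr
  have hp2 : p ≠ 2 := by
    rintro rfl
    exact (Nat.not_even_iff_odd.2 hw) (even_iff_two_dvd.2 hpw)
  have hp3 : 3 ≤ p := by have := hp.two_le; omega
  have h5 : (QuadraticAlgebra.norm r) ^ p = 1 / 4 := by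
    have e1 : QuadraticAlgebra.norm ((-1 : KK 2) ^ (2 ^ s) * -(-(A ^ 2))) = 1 / 4 := by
      rw [map_mul, map_pow, QuadraticAlgebra.norm_neg, map_one, one_pow, one_mul, neg_neg, map_pow,
        hNA]
      norm_num
    rw [← map_pow, hr, e1]
  apply no_odd_root_four hp3 (1 / QuadraticAlgebra.norm r)
  rw [div_pow, h5]
  norm_num

end Pool.Agent.Helper53.GF
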