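import Mathlib
import Pool.Agent.Helper53.GF.Pell
import Pool.Agent.Helper53.GE.LucSize

set_option autoImplicit false

namespace Pool.Agent.Helper53.GF

open Finset Polynomial Pool.Agent.Helper53.GE
open scoped QuadraticAlgebra

/-- the numbers `2 V_(4 m) + 5`, norms of `2 ω ^ (4 m) + 1` -/
def MM (m : ℕ) : ℤ := 2 * LV 2 (4 * m) + 5

lemma theta_mul (m : ℕ) :
    (2 * (QuadraticAlgebra.omega : OO 2) ^ (4 * m) + 1) * (2 * (wc 2) ^ (4 * m) + 1) =
      ((MM m : ℤ) : OO 2) := by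
  have hVeq := LV_eq (w_add 2) (w_mul 2) (4 * m)
  have hww : (QuadraticAlgebra.omega : OO 2) ^ (4 * m) * (wc 2) ^ (4 * m) = 1 := by
    rw [← mul_pow, w_mul, pow_mul]; norm_num
  unfold MM
  push_cast
  rw [hVeq]
  linear_combination 4 * hww

/-- **Divisors of `2 V_(4 m) + 5`.** -/
theorem M_main {m k H N D : ℕ} (hm : 1 ≤ m) (hN : 1 ≤ N)
    (s : Finset ℕ) (c : ℕ → ℤ) (hs : s.card ≤ k) (hc : ∀ i ∈ s, |c i| ≤ H)
    (hD : ∀ i ∈ s, i ≤ D * (4 * m)) {x : ℤ}
    (hcop : IsCoprime (MM m) 3) (hx : x ∣ MM m) (hxz : x ∣ ∑ i ∈ s, c i * LU 2 i) :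
    MM m ∣ ∑ i ∈ s, c i * LU 2 i ∨
      |(x : ℝ)| ≤ (((2 * k * (H * 2 ^ (2 * D + 1)) : ℕ) : ℝ) ^ 2 * al 2) ^ (N ^ k) *
        al 2 ^ (2 * (4 * m) / N) := by
  rcases Nat.eq_zero_or_pos (2 * k * (H * 2 ^ (2 * D + 1))) with h0 | hkH
  · left
    have h1 : ∑ i ∈ s, c i * LU 2 i = 0 := by
      apply Finset.sum_eq_zero
      intro i hi
      have h2 : 1 ≤ k := le_trans (Finset.card_pos.2 ⟨i, hi⟩) hs
      have h3 : H = 0 := by
        rcases Nat.mul_eq_zero.1 h0 with h | h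
        · omega
        · rcases Nat.mul_eq_zero.1 h with h' | h'
          · exact h'
          · exact absurd h' (by positivity)
      have h4 := hc i hi
      rw [h3] at h4
      have h5 : c i = 0 := by
        have := abs_nonneg (c i)
        exact abs_eq_zero.1 (le_antisymm (by exact_mod_cast h4) this)
      rw [h5, zero_mul]
    rw [h1]
    exact dvd_zero _
  have : Fact (∀ r : ℚ, r ^ 2 ≠ 1 + ((2 : ℤ) : ℚ) * r) := ⟨no_rat_root (Or.inr rfl)⟩
  have h0 : incl 2 QuadraticAlgebra.omega = (QuadraticAlgebra.omega : KK 2) := by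
    ext <;> simp [incl]
  have hAK : ((2 : ℤ) : KK 2) ≠ 0 := by
    intro h
    have h1 := congrArg QuadraticAlgebra.re h
    rw [QuadraticAlgebra.re_intCast, QuadraticAlgebra.re_zero] at h1
    norm_num at h1
  have hθ := theta_mul m
  set θ : OO 2 := 2 * (QuadraticAlgebra.omega : OO 2) ^ (4 * m) + 1 with hθdef
  set θ' : OO 2 := 2 * (wc 2) ^ (4 * m) + 1 with hθ'def
  set I : Ideal (OO 2) := Ideal.span {((x : ℤ) : OO 2), θ} with hIdef
  have hrel : ((2 : ℤ) : OO 2) * (QuadraticAlgebra.omega : OO 2) ^ (4 * m) - ((-1 : ℤ) : OO 2) = θ := by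
    rw [hθdef]; push_cast; ring
  have hI : ((2 : ℤ) : OO 2) * (QuadraticAlgebra.omega : OO 2) ^ (4 * m) - ((-1 : ℤ) : OO 2) ∈ I := by
    rw [hrel]
    exact Ideal.subset_span (by simp)
  have hzI : ((∑ i ∈ s, c i * LU 2 i : ℤ) : OO 2) ∈ I := by
    obtain ⟨y, hy⟩ := hxz
    have h1 : ((∑ i ∈ s, c i * LU 2 i : ℤ) : OO 2) = (y : OO 2) * ((x : ℤ) : OO 2) := by
      rw [hy]; push_cast; ring
    rw [h1]
    exact Ideal.mul_mem_left _ _ (Ideal.subset_span (by simp))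
  rcases luc_coreG (incl 2) (incl_inj 2) (w_add 2) (w_mul 2) (n := 4 * m) (k := k) (H := H) (N := N)
    (D := D) (A₀ := 2) (B₀ := -1) (M₀ := 2) (by omega) hN (by norm_num) (by norm_num) (by norm_num)
    hAK (fun q hq1 _ => by rw [h0]; exact irr_pell m hq1) s c hs hc hD I hI hzI with h | h
  · left
    rw [hrel] at h
    obtain ⟨B, hB⟩ := h
    set z : ℤ := ∑ i ∈ s, c i * LU 2 i with hz
    have hVeq := LV_eq (w_add 2) (w_mul 2) (4 * m)
    have hmul := LU_mul (w_add 2) (w_mul 2) (4 * m)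
    have h1 : ((MM m : ℤ) : OO 2) ∣ ((2 : ℤ) : OO 2) ^ (2 * D) *
        ((QuadraticAlgebra.omega - wc 2) * θ' * (z : OO 2)) := by
      refine ⟨B, ?_⟩
      rw [← hθ]
      linear_combination θ' * hB
    have h4 : ((2 : ℤ) : OO 2) ^ (2 * D) * ((QuadraticAlgebra.omega - wc 2) * θ' * (z : OO 2)) =
        (((2 ^ (2 * D)) * (LV 2 (4 * m) + 1) * z : ℤ) : OO 2) * (QuadraticAlgebra.omega - wc 2) -
          (((2 ^ (2 * D)) * (2 ^ 2 + 4) * LU 2 (4 * m) * z : ℤ) : OO 2) := by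
      have hΔ : (QuadraticAlgebra.omega - wc 2) ^ 2 = ((2 ^ 2 + 4 : ℤ) : OO 2) := by
        have e1 := w_add 2
        have e2 := w_mul 2
        push_cast at e1 ⊢
        linear_combination (QuadraticAlgebra.omega + wc 2 + 2) * e1 - 4 * e2
      push_cast at hΔ ⊢
      rw [hVeq, ← hΔ, hθ'def]
      linear_combination ((2 : OO 2) ^ (2 * D) * (QuadraticAlgebra.omega - wc 2) * (z : OO 2)) * hmul
    rw [h4, int_dvd_iff] at h1
    have h5 := h1.2
    simp only [wc, QuadraticAlgebra.im_mul, QuadraticAlgebra.re_sub,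
      QuadraticAlgebra.im_sub, QuadraticAlgebra.omega_re, QuadraticAlgebra.omega_im,
      QuadraticAlgebra.re_intCast, QuadraticAlgebra.im_intCast] at h5
    have h6 : MM m ∣ 2 ^ (2 * D) * (LV 2 (4 * m) + 1) * z * (1 - -1) := by
      have e1 : 2 ^ (2 * D) * (LV 2 (4 * m) + 1) * z * (1 - -1) =
        2 ^ (2 * D) * (LV 2 (4 * m) + 1) * z * (1 - -1) + 0 * (0 - 2) + 2 * 0 * (1 - -1) - 0 := by ring
      rw [e1]
      exact_mod_cast h5
    have h7 : MM m ∣ 2 ^ (2 * D) * (3 * z) := by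
      have e1 : 2 ^ (2 * D) * (3 * z) = MM m * (2 ^ (2 * D) * z) -
          2 ^ (2 * D) * (LV 2 (4 * m) + 1) * z * (1 - -1) := by
        unfold MM; ring
      rw [e1]
      exact dvd_sub (Dvd.intro _ rfl) h6
    have hodd : IsCoprime (MM m) 2 := by
      rw [Int.isCoprime_two_right]
      unfold MM
      exact ⟨LV 2 (4 * m) + 2, by ring⟩
    have h8 := (hodd.pow_right (n := 2 * D)).dvd_of_dvd_mul_left h7
    exact hcop.dvd_of_dvd_mul_left h8
  · right
    obtain ⟨q, Q, hq, hdeg, hA, hmem, hne⟩ := h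
    rw [hIdef, Ideal.mem_span_pair] at hmem
    obtain ⟨A, B, hAB⟩ := hmem
    have hb := norm_bound (P := 2) (by norm_num) hdeg hA
    have hxn : x ∣ QuadraticAlgebra.norm (aeval (QuadraticAlgebra.omega : OO 2) Q) := by
      have h1 : ((x : ℤ) : OO 2) ∣
          algebraMap ℤ (OO 2) (QuadraticAlgebra.norm (aeval (QuadraticAlgebra.omega : OO 2) Q)) := by
        rw [QuadraticAlgebra.algebraMap_norm_eq_mul_star, ← hAB]
        obtain ⟨y, hy⟩ := hx
        have h2 : ((MM m : ℤ) : OO 2) = ((x : ℤ) : OO 2) * ((y : ℤ) : OO 2) := by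
          rw [hy]; push_cast; ring
        have h4 : star θ = θ' := by
          rw [hθdef, hθ'def, star_add, star_mul', star_pow, star_w, star_one, star_ofNat]
        have h3 : star (A * ((x : ℤ) : OO 2) + B * θ) =
            star A * ((x : ℤ) : OO 2) + star B * θ' := by
          rw [star_add, star_mul', star_mul', h4, star_intCast]
        rw [h3]
        refine ⟨A * (star A * ((x : ℤ) : OO 2) + star B * θ') +
          B * θ * star A + B * star B * ((y : ℤ) : OO 2), ?_⟩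
        linear_combination (B * star B) * hθ + (B * star B) * h2
      rw [int_dvd_iff] at h1
      simpa using h1.1
    have h1 : |(x : ℝ)| ≤ |((QuadraticAlgebra.norm (aeval (QuadraticAlgebra.omega : OO 2) Q) : ℤ) : ℝ)| := by
      have h2 : |x| ≤ |QuadraticAlgebra.norm (aeval (QuadraticAlgebra.omega : OO 2) Q)| :=
        Int.le_of_dvd (abs_pos.2 (norm_ne (Or.inr rfl) hne)) ((abs_dvd_abs _ _).2 hxn)
      exact_mod_cast h2
    exact (h1.trans hb).trans (fin_bound (P := 2) (by norm_num) hq hkH)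

/-- the asymptotic form -/
theorem M_asym (H D : ℕ) {δ : ℝ} (hδ : 0 < δ) :
    ∃ c : ℝ, 0 < c ∧ ∃ m₀ : ℕ, ∀ m : ℕ, m₀ ≤ m → IsCoprime (MM m) 3 →
      ∀ (k : ℕ) (x : ℤ) (s : Finset ℕ) (e : ℕ → ℤ), s.card ≤ k → (∀ i ∈ s, |e i| ≤ H) →
      (∀ i ∈ s, i ≤ D * (4 * m)) → x ∣ MM m → (al 2) ^ (δ * (4 * m : ℕ)) ≤ |(x : ℝ)| →
      x ∣ ∑ i ∈ s, e i * LU 2 i → ¬ MM m ∣ ∑ i ∈ s, e i * LU 2 i → c * Real.log m < k := by
  have hal := al_gt (P := 2) (by norm_num)
  obtain ⟨c, hc, N, hN, n₀, h⟩ := analytic hal (H * 2 ^ (2 * D + 1)) hδ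
  refine ⟨c, hc, max n₀ 1, ?_⟩
  intro m hm hcop k x s e hs he hD hx hxδ hxz hnot
  by_contra hcon
  push Not at hcon
  have hm1 : 1 ≤ m := le_trans (le_max_right _ _) hm
  have hm0 : (0 : ℝ) < m := by exact_mod_cast hm1
  have hlog : Real.log m ≤ Real.log ((4 * m : ℕ) : ℝ) := by
    apply Real.log_le_log hm0
    push_cast
    linarith
  obtain ⟨-, h2⟩ := h (4 * m) (by have := le_trans (le_max_left _ _) hm; omega) k
    (hcon.trans (mul_le_mul_of_nonneg_left hlog hc.le))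
  rcases M_main hm1 hN s e hs he hD hcop hx hxz with h3 | h3
  · exact hnot h3
  · have h4 : al 2 ^ (2 * (4 * m) / N) ≤ al 2 ^ (2 * (2 * (4 * m)) / N) := by
      apply pow_le_pow_right₀ hal.le
      apply Nat.div_le_div_right
      omega
    have h5 : (0 : ℝ) ≤ (((2 * k * (H * 2 ^ (2 * D + 1)) : ℕ) : ℝ) ^ 2 * al 2) ^ (N ^ k) := by
      positivity
    have h6 := mul_le_mul_of_nonneg_left h4 h5
    linarith

end Pool.Agent.Helper53.GF
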